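import Mathlib
import Pool.Agent.W612.WSL.Defs
import Pool.Agent.W612.WSL.Monoid
import Pool.Agent.Y464.WU.Hom

/-!
# The units of `wSL_n^sc` modulo the welded pure braids

Stronger form of the starting result `UnitNotBraid` (for `n ≥ 2` the monoid `wSL_n^sc` of welded
string links up to self-crossing changes has one unit which is not a welded pure braid).

`Pool.Agent.W612.WSL.Defs` / `Monoid` (starting library): `Diagram n` (Gauss diagrams on `n`
strands), `WSLsc n` (the monoid `wSL_n^sc`: Gauss diagrams modulo the generalized Reidemeister
moves, Overcrossings Commute and self-crossing changes, with stacking as product), `cls D` (the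
class of a diagram), `IsMonotone` (monotone diagrams; their classes are the welded pure braids).

For every `n` there is a surjective homomorphism from the group of units of `wSL_n^sc` onto
`ℤ ^ (n (n - 1) / 2)` which is trivial on all welded pure braids.  So the quotient of the group of
units by the normal closure of the welded pure braids is infinite for `n ≥ 2`, with abelianization
of rank at least `n (n - 1) / 2`; and the welded pure braids together with fewer than
`n (n - 1) / 2` further units never generate the group of units, not even as a normal subgroup.
-/

set_option autoImplicit false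

namespace Pool.Agent.Results.MP_7df7b8_gt.UnitsModBraids

open Pool.Agent.W612.WSL

/-- The units of `wSL_n^sc` which are classes of monotone diagrams, that is, the image of the
welded pure braid group `wP_n`. -/
def braids (n : ℕ) : Set (WSLsc n)ˣ :=
  {u | ∃ D : Diagram n, IsMonotone D.1 ∧ (u : WSLsc n) = cls D}

/-- For every `n` the group of units of `wSL_n^sc` has a surjective homomorphism onto
`ℤ ^ (n choose 2)` (coordinates: the pairs `i < j` of strands) which is trivial on all welded pure
braids; and if `S` is a set of fewer than `n choose 2` units, then the normal closure of the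
welded pure braids and `S` is not the group of all units. -/
theorem result (n : ℕ) :
    (∃ f : (WSLsc n)ˣ →* Multiplicative ({p : Fin n × Fin n // p.1 < p.2} → ℤ),
      Function.Surjective f ∧ ∀ u ∈ braids n, f u = 1) ∧
    ∀ S : Finset (WSLsc n)ˣ, S.card < n.choose 2 →
      Subgroup.normalClosure (braids n ∪ (S : Set (WSLsc n)ˣ)) ≠ ⊤ := by
  refine ⟨⟨Pool.Agent.Y464.WU.hom n, Pool.Agent.Y464.WU.hom_surjective n, ?_⟩, fun S hS => ?_⟩
  · rintro u ⟨D, hD, hu⟩
    exact Pool.Agent.Y464.WU.hom_braid u D hD hu
  · exact Pool.Agent.Y464.WU.not_generated n S hS

end Pool.Agent.Results.MP_7df7b8_gt.UnitsModBraids
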